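import Pool.Agent.NGP.Stmts
import Pool.Agent.Helper54_FLX.All
import Pool.Agent.Helper40_FLX.Fix
import Pool.Agent.Helper83_FLX.Ker
import Pool.Agent.Helper88_FLX.Nrm
import Pool.Agent.Helper53_PQP.INV

/-! Mini squad NGP (MP_5f32e0_gt), row RDI (helper27): the reduction, with invariance. -/

set_option autoImplicit false

open scoped InnerProductSpace Topology ContDiff Manifold
open MeasureTheory Filter Set

noncomputable section

namespace Pool.Agent.NGP.H27

open Pool.Agent.Helper42_Paneitz Pool.Agent.Helper82_Vir Pool.Agent.FLX Pool.Agent.PQP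
open Pool.Agent.FLX.H40 (finish slice_cont TT dist_bound continuous_Nn)
open Pool.Agent.FLX.H54 (tr moiB)
open Pool.Agent.PQP.H53 (integral_refl inner_refl ell_refl mem_of_inv)

/-- Uniqueness of the fixed point. -/
theorem uniq (hsbk : SbkStmt) (hsbn : SbnStmt) : ∃ ρ : ℝ, 0 < ρ ∧ ∀ (q h h' : S4 → ℝ) (τ R : ℝ),
    Continuous q → SB q τ → 0 ≤ τ → τ ≤ ρ → 0 ≤ R → R ≤ ρ → Continuous h → Continuous h' →
    (∀ x, |h x| ≤ R) → (∀ x, |h' x| ≤ R) → (∀ x, h x = TT q h x) → (∀ x, h' x = TT q h' x) →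
    ∀ x, h x = h' x := by
  have hker : KerStmt := H83.ker H54.pow_all
  have hnrm : NrmStmt := H88.nrm
  obtain ⟨hell, -⟩ := hker
  obtain ⟨CK, hCK, hK⟩ := hsbk
  obtain ⟨CN, hCN, hN⟩ := hsbn
  set L : ℝ := CK * (25 / 24) with hLdef
  have hL0 : 0 ≤ L := by positivity
  have hL : ∀ (f : S4 → ℝ) (B : ℝ), Continuous f → SB f B → ∀ x, |K f x - avg f / 24| ≤ L * B := by
    intro f B hf hB x
    obtain ⟨h1, h2, -⟩ := hK f B hf hB
    have h3 : |avg f / 24| ≤ CK * B / 24 := by
      rw [abs_div, abs_of_pos (by norm_num : (0 : ℝ) < 24)]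
      gcongr
    calc |K f x - avg f / 24| ≤ |K f x| + |avg f / 24| := abs_sub _ _
      _ ≤ CK * B + CK * B / 24 := add_le_add (h1 x) h3
      _ = L * B := by rw [hLdef]; ring
  set C₁ : ℝ := L * CN + 1 with hC₁def
  have hC₁ : 1 ≤ C₁ := by
    have : 0 ≤ L * CN := mul_nonneg hL0 hCN
    linarith
  have hC₁p : 0 < C₁ := by linarith
  have hLC : L * CN ≤ C₁ := by linarith
  refine ⟨1 / (40 * C₁), by positivity, ?_⟩
  intro q h h' τ R hq hqN hτ0 hτ hR0 hR hh hh' hhR hhR' hfix hfix'
  have hρ : C₁ * (1 / (40 * C₁)) = 1 / 40 := by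
    field_simp
  have hCτ : C₁ * τ ≤ 1 / 40 := by
    rw [← hρ]
    exact mul_le_mul_of_nonneg_left hτ hC₁p.le
  have hCR : C₁ * R ≤ 1 / 40 := by
    rw [← hρ]
    exact mul_le_mul_of_nonneg_left hR hC₁p.le
  have hR4 : R ≤ 1 / 40 := by
    have : R ≤ C₁ * R := by nlinarith
    linarith
  have hcon : ∀ D : ℝ, (∀ x, |h x - h' x| ≤ D) → ∀ x, |TT q h x - TT q h' x| ≤ 19 / 20 * D := by
    intro D hD x
    have hD0 : 0 ≤ D := (abs_nonneg _).trans (hD x)
    have h1 := hnrm (fun x => h x - h' x) D (hh.sub hh') hD x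
    have hN1 := continuous_Nn hq hh
    have hN2 := continuous_Nn hq hh'
    have h3 := (hN q h h' R D τ hq hh hh' hR0 (by linarith) hhR hhR' hD hqN).2.1
    have h2 := hL (fun x => Nn q h x - Nn q h' x) _ (hN1.sub hN2) h3 x
    rw [H40.K_sub hell hN1 hN2, H40.avg_sub hN1 hN2] at h2
    rw [H40.Aop_sub hell hh hh'] at h1
    have h4 : L * (CN * (τ + R) * D) ≤ C₁ * (τ + R) * D := by
      calc L * (CN * (τ + R) * D) = (L * CN) * ((τ + R) * D) := by ring
        _ ≤ C₁ * ((τ + R) * D) :=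
          mul_le_mul_of_nonneg_right hLC (mul_nonneg (add_nonneg hτ0 hR0) hD0)
        _ = C₁ * (τ + R) * D := by ring
    have h5 : C₁ * (τ + R) * D ≤ 1 / 20 * D := by
      have : C₁ * (τ + R) ≤ 1 / 20 := by nlinarith
      exact mul_le_mul_of_nonneg_right this hD0
    have h6 : TT q h x - TT q h' x = (Aop h x - Aop h' x) +
        (K (Nn q h) x - K (Nn q h') x - (avg (Nn q h) - avg (Nn q h')) / 24) := by
      unfold TT
      ring
    rw [h6]
    have h7 := abs_add_le (Aop h x - Aop h' x)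
      (K (Nn q h) x - K (Nn q h') x - (avg (Nn q h) - avg (Nn q h')) / 24)
    linarith
  intro x
  have h1 := dist_bound hh hh' le_rfl (fun D hD x => by
    have h2 := hcon D hD x
    rw [hfix x, hfix' x, add_zero]
    exact h2) x
  rw [mul_zero] at h1
  have h3 := abs_nonpos_iff.1 h1
  linarith

theorem avg_refl (P : Submodule ℝ E5) (f : S4 → ℝ) :
    avg (fun x => f (act P.reflection x)) = avg f := by
  unfold avg
  rw [integral_refl P f]

theorem K_refl (P : Submodule ℝ E5) (f : S4 → ℝ) (x : S4) :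
    K (fun x => f (act P.reflection x)) x = K f (act P.reflection x) := by
  unfold K
  rw [avg_refl]
  congr 1
  rw [← integral_refl P fun y => ell (act P.reflection x) y * (f y - avg f)]
  apply integral_congr_ae
  refine Eventually.of_forall fun y => ?_
  show ell x y * (f (act P.reflection y) - avg f) =
    ell (act P.reflection x) (act P.reflection y) * (f (act P.reflection y) - avg f)
  rw [ell_refl]

theorem Aop_refl (P : Submodule ℝ E5) (f : S4 → ℝ) (x : S4) :
    Aop (fun x => f (act P.reflection x)) x = Aop f (act P.reflection x) := by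
  unfold Aop
  rw [K_refl]
  have h2 : ∫ y, ⟪(x : E5), (y : E5)⟫_ℝ * f (act P.reflection y) ∂sig =
      ∫ y, ⟪(act P.reflection x : E5), (y : E5)⟫_ℝ * f y ∂sig := by
    rw [← integral_refl P fun y : S4 => ⟪(act P.reflection x : E5), (y : E5)⟫_ℝ * f y]
    apply integral_congr_ae
    refine Eventually.of_forall fun y => ?_
    show ⟪(x : E5), (y : E5)⟫_ℝ * f (act P.reflection y) =
      ⟪(act P.reflection x : E5), (act P.reflection y : E5)⟫_ℝ * f (act P.reflection y)
    rw [inner_refl]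
  rw [h2]

theorem TT_refl (P : Submodule ℝ E5) {q : S4 → ℝ} (hq : Inv P q) (h : S4 → ℝ) (x : S4) :
    TT q (fun x => h (act P.reflection x)) x = TT q h (act P.reflection x) := by
  have hN : Nn q (fun x => h (act P.reflection x)) = fun x => Nn q h (act P.reflection x) := by
    funext y
    unfold Nn
    rw [hq y]
  unfold TT
  rw [hN, Aop_refl, K_refl, avg_refl]

/-- row RDI -/
theorem rdi (hF : SbfStmt) (hN : SbnStmt) (hK : SbkStmt) (_hL : SblStmt) : RdiStmt := by
  have ker : FLX.KerStmt := FLX.H83.ker FLX.H54.pow_all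
  have rea : FLX.ReaStmt := FLX.H32.rea FLX.H54.pow_all ker
  have sym : FLX.SymStmt := FLX.H55.sym ker rea
  have xis : FLX.XisStmt := FLX.H55.xis sym (FLX.H82.rep ker)
  obtain ⟨ρ, hρ, hun⟩ := uniq hK hN
  obtain ⟨τ₁, CF, hτ₁, hCF, hF⟩ := hF
  obtain ⟨CN, hCN, hN⟩ := hN
  refine ⟨min (min τ₁ (1 / (4 * CF))) (min ρ (ρ / CF)), CN * (CF + CF ^ 2) + CF,
    lt_min (lt_min hτ₁ (by positivity)) (lt_min hρ (by positivity)), by positivity, ?_⟩
  intro S q τ hS1 hqc hτ0 hττ' hSB
  have hττ : τ ≤ min τ₁ (1 / (4 * CF)) := hττ'.trans (min_le_left _ _)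
  have hτρ : τ ≤ ρ := hττ'.trans ((min_le_right _ _).trans (min_le_left _ _))
  have hRρ : CF * τ ≤ ρ := by
    have h1 : τ ≤ ρ / CF := hττ'.trans ((min_le_right _ _).trans (min_le_right _ _))
    rw [le_div_iff₀ hCF] at h1
    linarith
  have ht1 : τ ≤ τ₁ := hττ.trans (min_le_left _ _)
  have ht2 : CF * τ ≤ 1 / 4 := by
    have h1 : τ ≤ 1 / (4 * CF) := hττ.trans (min_le_right _ _)
    rw [le_div_iff₀ (by positivity)] at h1
    linarith
  have hmobc : ContinuousOn (fun z : E5 × S4 => mob z.1 z.2) (S ×ˢ univ) :=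
    FLX.H54.mos_all.1.mono fun z hz => hS1 z.1 hz.1
  have hmobb : ∀ b ∈ S, Continuous (mob b) := fun b hb => slice_cont mob hmobc hb
  set qb : E5 → S4 → ℝ := fun b x => q (mob b x) with hqb
  have hqbc : ContinuousOn (fun z : E5 × S4 => qb z.1 z.2) (S ×ˢ univ) :=
    hqc.comp_continuousOn hmobc
  have hqb1 : ∀ b ∈ S, Continuous (qb b) := fun b hb => hqc.comp (hmobb b hb)
  obtain ⟨H, hHc, hHb, hHR, hHeq⟩ := hF S qb τ hqbc hτ0 ht1 hSB
  have hR0 : 0 ≤ CF * τ := by positivity
  refine ⟨fun b => ∫ y : S4, Nn (qb b) (H b) y • (y : E5) ∂sig, ?_, ?_, ?_, ?_⟩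
  · refine continuousOn_integral_of_compact_support
      (f := fun (b : E5) (y : S4) => Nn (qb b) (H b) y • (y : E5)) isCompact_univ ?_ ?_
    · show ContinuousOn (fun z : E5 × S4 => Nn (qb z.1) (H z.1) z.2 • (z.2 : E5)) (S ×ˢ univ)
      have h1 : Continuous fun z : E5 × S4 => (z.2 : E5) :=
        continuous_subtype_val.comp continuous_snd
      have h2 : ContinuousOn (fun z : E5 × S4 => Real.exp (4 * H z.1 z.2)) (S ×ˢ univ) :=
        Real.continuous_exp.comp_continuousOn (continuousOn_const.mul hHc)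
      have h3 : ContinuousOn (fun z : E5 × S4 =>
        (6 + qb z.1 z.2) * Real.exp (4 * H z.1 z.2) - 6 - 24 * H z.1 z.2) (S ×ˢ univ) :=
        (((continuousOn_const.add hqbc).mul h2).sub continuousOn_const).sub
        (continuousOn_const.mul hHc)
      exact ContinuousOn.smul h3 h1.continuousOn
    · intro b x _ hx
      exact absurd (mem_univ x) hx
  · intro b hb
    have h1 := (hN (qb b) (H b) (H b) (CF * τ) 0 τ (hqb1 b hb) (hHb b hb) (hHb b hb) hR0 ht2
      (hHR b hb) (hHR b hb) (fun x => by simp) (hSB b hb)).2.2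
    refine h1.trans ?_
    have h2 : CN * (CF * τ * τ + (CF * τ) ^ 2) = CN * (CF + CF ^ 2) * τ ^ 2 := by ring
    rw [h2]
    have h3 : 0 ≤ CF * τ ^ 2 := by positivity
    linarith
  · intro b hb hB
    have hb1 := hS1 b hb
    have hIE := finish ker rea xis sym (hqb1 b hb) (hHb b hb) (hHeq b hb) hB
    refine ⟨tr b (H b), moiB FLX.H54.moa_all FLX.H54.mos_all FLX.H54.mom_all ker b
      (fun x => 6 + q x) (H b) hb1 (continuous_const.add hqc) hIE, fun y => ?_⟩
    obtain ⟨-, -, -, a4, -, -⟩ := FLX.H54.moa_all b hb1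
    have h1 : tr b (H b) (mob b y) + Real.log (Jac b y) / 4 = H b y := by
      unfold tr
      rw [a4 y]
      ring
    rw [h1]
    refine (hHR b hb y).trans ?_
    have h2 : 0 ≤ CN * (CF + CF ^ 2) * τ := by positivity
    linarith
  · intro P hP b hb hbP
    have hb1 := hS1 b hb
    obtain ⟨a1, a2, a3, a4, a5, a6⟩ := FLX.H54.moa_all b hb1
    have hRb : P.reflection b = b := (Submodule.reflection_eq_self_iff (K := P) b).2 hbP
    have hmob : ∀ x, mob b (act P.reflection x) = act P.reflection (mob b x) := by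
      intro x
      apply Subtype.ext
      rw [a2, act_coe, act_coe, a2]
      have h1 : ⟪b, P.reflection (x : E5)⟫_ℝ = ⟪b, (x : E5)⟫_ℝ := by
        have h2 := LinearIsometryEquiv.inner_map_map P.reflection b (x : E5)
        rwa [hRb] at h2
      unfold mobE
      rw [h1, map_smul, map_add, map_smul, map_smul, hRb]
    have hqI : Inv P (qb b) := by
      intro x
      show q (mob b (act P.reflection x)) = q (mob b x)
      rw [hmob x, hP]
    have hHI : Inv P (H b) := by
      intro x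
      refine hun (qb b) (fun x => H b (act P.reflection x)) (H b) τ (CF * τ) (hqb1 b hb)
        (hSB b hb) hτ0 hτρ hR0 hRρ ((hHb b hb).comp (continuous_act _)) (hHb b hb)
        (fun x => hHR b hb _) (hHR b hb) ?_ (fun x => hHeq b hb x) x
      intro x
      rw [TT_refl P hqI (H b) x]
      exact hHeq b hb _
    have hNI : Inv P (Nn (qb b) (H b)) := by
      intro x
      unfold Nn
      rw [hqI x, hHI x]
    exact mem_of_inv P hNI

end Pool.Agent.NGP.H27
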